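import Mathlib
import Pool.Agent.R266.FC.Final

set_option autoImplicit false

/-!
# MP_10800c_mp: the equal-sign order parameter in Feynman checkers
-/

namespace Pool.Agent.Results.MP_10800c_mp.OrderParameter

open Filter Topology Pool.Agent.R266.FC

/-- The limit of `S_v(t)` as `t → ∞`, for all `v` in `(0, 1 / √2)` and in `(1 / √2, 1)`. For every
`v` in `(0, 1 / √2)` it differs from the value suggested in Q1. -/
theorem result :
    (∀ v : ℝ, 0 < v → v < 1 / √2 →
      Tendsto (S v) atTop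
        (𝓝 (v / 2 + (1 - √(1 - 2 * v ^ 2) + Real.log ((1 + √(1 - 2 * v ^ 2)) / 2)) / 4)) ∧
      ¬ Tendsto (S v) atTop
        (𝓝 (1 / 2 * (1 + v - √(1 - v ^ 2) + Real.log ((1 + √(1 - v ^ 2)) / 2))))) ∧
    (∀ v : ℝ, 1 / √2 < v → v < 1 →
      Tendsto (S v) atTop
        (𝓝 (v / 2 + (1 + √(2 * v ^ 2 - 1) - Real.arctan √(2 * v ^ 2 - 1) +
          Real.log (v / √2)) / 4))) := by
  have h2 : (0 : ℝ) < √2 := by positivity
  have hsq : √2 ^ 2 = (2 : ℝ) := Real.sq_sqrt zero_le_two
  refine ⟨fun v hv0 hv => ?_, fun v hv hv1 => ?_⟩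
  · rw [lt_div_iff₀ h2] at hv
    have hv2 : 2 * v ^ 2 < 1 := by
      have h3 : (v * √2) ^ 2 < 1 := by
        have : 0 ≤ v * √2 := by positivity
        nlinarith
      rw [mul_pow, hsq] at h3
      linarith
    have hv1 : v < 1 := by nlinarith
    have hlim := S_lim hv0 hv1
    rw [int1 hv0.le hv2.le] at hlim
    refine ⟨hlim, fun h => ?_⟩
    have h3 := tendsto_nhds_unique h hlim
    exact (not_suggested hv0 hv2).ne h3
  · have hv0 : 0 < v := lt_trans (by positivity) hv
    rw [div_lt_iff₀ h2] at hv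
    have hv2 : 1 < 2 * v ^ 2 := by
      have h3 : 1 < (v * √2) ^ 2 := by nlinarith
      rw [mul_pow, hsq] at h3
      linarith
    have hlim := S_lim hv0 hv1
    rw [int2 hv0 hv1 hv2] at hlim
    exact hlim

end Pool.Agent.Results.MP_10800c_mp.OrderParameter
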